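import Pool.Agent.LSG.StmtsA

/-!
Row DUG of squad LSG (MP_005a41_gt): the extension theorem of Dugundji for spaces `C_p`.
-/

set_option autoImplicit false

open MeasureTheory Set Topology

namespace Pool.Agent.LSG.H37

theorem dug : DugStmt := by
  intro X _ _ A hA
  let _ : MetricSpace X := TopologicalSpace.metrizableSpaceMetric X
  rcases A.eq_empty_or_nonempty with hempty | hne
  · refine ⟨0, fun f a => ?_⟩
    exact (Set.eq_empty_iff_forall_notMem.mp hempty a.1 a.2).elim
  -- distances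
  have hpos : ∀ x : ↥Aᶜ, 0 < Metric.infDist x.1 A := fun x =>
    (hA.notMem_iff_infDist_pos hne).mp x.2
  have hch : ∀ x : ↥Aᶜ, ∃ a ∈ A, dist x.1 a < 2 * Metric.infDist x.1 A := by
    intro x
    exact (Metric.infDist_lt_iff hne).mp (by linarith [hpos x])
  choose a haA had using hch
  -- the partition of unity
  obtain ⟨ρ, hρ⟩ := PartitionOfUnity.exists_isSubordinate (isClosed_univ : IsClosed (univ : Set ↥Aᶜ))
    (fun x : ↥Aᶜ => Metric.ball x (Metric.infDist x.1 A / 4)) (fun x => Metric.isOpen_ball)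
    (fun x _ => mem_iUnion.mpr ⟨x, Metric.mem_ball_self (by linarith [hpos x])⟩)
  have hsum : ∀ (x : ↥Aᶜ) (g : ↥Aᶜ → ℝ),
      ∑ i ∈ ρ.finsupport x, ρ i x • g i = ∑ᶠ i, ρ i x • g i := by
    intro x g
    exact ρ.sum_finsupport_smul_eq_finsum (x₀ := x) (fun i _ => g i)
  classical
  -- the extension
  let ext : (A → ℝ) → X → ℝ := fun f x =>
    if h : x ∈ A then f ⟨x, h⟩
    else ∑ i ∈ ρ.finsupport ⟨x, h⟩, ρ i ⟨x, h⟩ • f ⟨a i, haA i⟩
  have ext_in : ∀ (f : A → ℝ) (x : X) (h : x ∈ A), ext f x = f ⟨x, h⟩ := fun f x h => dif_pos h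
  have ext_out : ∀ (f : A → ℝ) (x : X) (h : x ∉ A),
      ext f x = ∑ i ∈ ρ.finsupport ⟨x, h⟩, ρ i ⟨x, h⟩ • f ⟨a i, haA i⟩ := fun f x h => dif_neg h
  have ext_cont : ∀ f : A → ℝ, Continuous f → Continuous (ext f) := by
    intro f hf
    rw [continuous_iff_continuousAt]
    intro x
    by_cases hx : x ∈ A
    · rw [Metric.continuousAt_iff]
      intro ε hε
      obtain ⟨δ, hδ, hfδ⟩ := Metric.continuousAt_iff.mp (hf.continuousAt (x := ⟨x, hx⟩)) ε hε
      refine ⟨δ / 4, by linarith, fun {y} hy => ?_⟩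
      rw [ext_in f x hx]
      by_cases hyA : y ∈ A
      · rw [ext_in f y hyA]
        exact hfδ (show dist y x < δ by linarith)
      · rw [ext_out f y hyA, hsum ⟨y, hyA⟩ (fun i => f ⟨a i, haA i⟩)]
        have hball : ∑ᶠ i, ρ i ⟨y, hyA⟩ • f ⟨a i, haA i⟩ ∈ Metric.ball (f ⟨x, hx⟩) ε := by
          refine ρ.finsum_smul_mem_convex (mem_univ (⟨y, hyA⟩ : ↥Aᶜ))
            (g := fun i _ => f ⟨a i, haA i⟩) (fun i hi => ?_) (convex_ball _ _)
          have h1 : (⟨y, hyA⟩ : ↥Aᶜ) ∈ Metric.ball i (Metric.infDist i.1 A / 4) :=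
            hρ i (subset_tsupport _ hi)
          have h2 : dist y i.1 < Metric.infDist i.1 A / 4 := h1
          have h3 : Metric.infDist i.1 A ≤ dist i.1 x := Metric.infDist_le_dist_of_mem hx
          have h4 : dist i.1 x ≤ dist i.1 y + dist y x := dist_triangle _ _ _
          have h5 : dist (a i) x ≤ dist (a i) i.1 + dist i.1 x := dist_triangle _ _ _
          have h6 := had i
          rw [dist_comm] at h6
          rw [dist_comm y i.1] at h2
          have h7 : dist (a i) x < δ := by linarith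
          exact hfδ (show dist (a i) x < δ from h7)
        exact hball
    · have hop : IsOpen (Aᶜ) := hA.isOpen_compl
      have h1 : Continuous (fun y : ↥Aᶜ => ∑ᶠ i, ρ i y • (fun (_ : ↥Aᶜ) => f ⟨a i, haA i⟩) y) :=
        ρ.continuous_finsum_smul (fun i y _ => continuousAt_const)
      have h2 : (fun y : ↥Aᶜ => ∑ᶠ i, ρ i y • (fun (_ : ↥Aᶜ) => f ⟨a i, haA i⟩) y) =
          ext f ∘ (Subtype.val : ↥Aᶜ → X) := by
        funext y
        simp only [Function.comp_apply]
        rw [ext_out f y.1 y.2]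
        exact (hsum y (fun i => f ⟨a i, haA i⟩)).symm
      rw [h2] at h1
      exact (hop.isOpenEmbedding_subtypeVal.continuousAt_iff (x := ⟨x, hx⟩)).mp h1.continuousAt
  refine ⟨{ toFun := fun f => ⟨ext f.1, ext_cont f.1 f.2⟩
            map_add' := ?_
            map_smul' := ?_
            cont := ?_ }, ?_⟩
  · intro f g
    apply Subtype.ext
    funext x
    show ext (f.1 + g.1) x = ext f.1 x + ext g.1 x
    by_cases hx : x ∈ A
    · rw [ext_in _ x hx, ext_in _ x hx, ext_in _ x hx]
      rfl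
    · rw [ext_out _ x hx, ext_out _ x hx, ext_out _ x hx, ← Finset.sum_add_distrib]
      refine Finset.sum_congr rfl fun i _ => ?_
      simp only [Pi.add_apply, smul_add]
  · intro c f
    apply Subtype.ext
    funext x
    show ext (c • f.1) x = c • ext f.1 x
    by_cases hx : x ∈ A
    · rw [ext_in _ x hx, ext_in _ x hx]
      rfl
    · rw [ext_out _ x hx, ext_out _ x hx, Finset.smul_sum]
      refine Finset.sum_congr rfl fun i _ => ?_
      simp only [Pi.smul_apply]
      rw [smul_comm]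
  · refine Continuous.subtype_mk (continuous_pi fun x => ?_) _
    by_cases hx : x ∈ A
    · have : (fun f : ↥(Cp A) => ext f.1 x) = fun f : ↥(Cp A) => f.1 ⟨x, hx⟩ := by
        funext f
        exact ext_in _ x hx
      rw [this]
      exact (continuous_apply _).comp continuous_subtype_val
    · have : (fun f : ↥(Cp A) => ext f.1 x) = fun f : ↥(Cp A) =>
          ∑ i ∈ ρ.finsupport ⟨x, hx⟩, ρ i ⟨x, hx⟩ • f.1 ⟨a i, haA i⟩ := by
        funext f
        exact ext_out _ x hx
      rw [this]
      refine continuous_finsetSum _ fun i _ => ?_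
      have hc : Continuous (fun f : ↥(Cp A) => f.1 ⟨a i, haA i⟩) :=
        (continuous_apply (⟨a i, haA i⟩ : A)).comp continuous_subtype_val
      exact (continuous_const (y := ρ i ⟨x, hx⟩)).mul hc
  · intro f x
    exact ext_in _ x.1 x.2

end Pool.Agent.LSG.H37
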