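import Pool.Agent.LSG.StmtsA

/-!
Row PEL of squad LSG (MP_005a41_gt): the decomposition method of Pelczynski.
-/

set_option autoImplicit false

open MeasureTheory Set Topology

namespace Pool.Agent.LSG.H37

/-- splitting off the first term of a sequence -/
def seqSucc (M : Type) [AddCommGroup M] [Module ℝ M] [TopologicalSpace M] :
    (ℕ → M) ≃L[ℝ] (M × (ℕ → M)) where
  toFun f := (f 0, fun n => f (n + 1))
  map_add' _ _ := rfl
  map_smul' _ _ := rfl
  invFun x := fun n => Nat.casesOn n x.1 x.2
  left_inv f := by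
    funext n
    cases n <;> rfl
  right_inv x := rfl
  continuous_toFun := by
    refine (continuous_apply 0).prodMk (continuous_pi fun n => ?_)
    exact continuous_apply (n + 1)
  continuous_invFun := by
    refine continuous_pi fun n => ?_
    cases n with
    | zero => exact continuous_fst
    | succ n => exact (continuous_apply n).comp continuous_snd

/-- sequences of pairs are pairs of sequences -/
def seqProd (M N : Type) [AddCommGroup M] [Module ℝ M] [TopologicalSpace M] [AddCommGroup N]
    [Module ℝ N] [TopologicalSpace N] : (ℕ → M × N) ≃L[ℝ] ((ℕ → M) × (ℕ → N)) where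
  toFun f := (fun n => (f n).1, fun n => (f n).2)
  map_add' _ _ := rfl
  map_smul' _ _ := rfl
  invFun x := fun n => (x.1 n, x.2 n)
  left_inv _ := rfl
  right_inv _ := rfl
  continuous_toFun := by
    refine (continuous_pi fun n => ?_).prodMk (continuous_pi fun n => ?_)
    · exact continuous_fst.comp (continuous_apply n)
    · exact continuous_snd.comp (continuous_apply n)
  continuous_invFun := by
    refine continuous_pi fun n => ?_
    exact ((continuous_apply n).comp continuous_fst).prodMk ((continuous_apply n).comp continuous_snd)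

/-- absorption -/
noncomputable def absorb {E F W : Type} [AddCommGroup E] [Module ℝ E] [TopologicalSpace E]
    [AddCommGroup F] [Module ℝ F] [TopologicalSpace F] [AddCommGroup W] [Module ℝ W]
    [TopologicalSpace W] (e : E ≃L[ℝ] (ℕ → E)) (s : E ≃L[ℝ] (F × W)) : E ≃L[ℝ] (F × E) :=
  let t : (ℕ → E) ≃L[ℝ] (ℕ → F × W) := ContinuousLinearEquiv.piCongrRight fun _ => s
  e.trans <| t.trans <| (seqProd F W).trans <|
    ((seqSucc F).prodCongr (ContinuousLinearEquiv.refl ℝ (ℕ → W))).trans <|
    (ContinuousLinearEquiv.prodAssoc ℝ F (ℕ → F) (ℕ → W)).trans <|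
    (ContinuousLinearEquiv.refl ℝ F).prodCongr
      ((seqProd F W).symm.trans (t.symm.trans e.symm))

theorem pel : PelStmt := by
  intro E F _ _ _ _ _ _ _ _ _ _ he
  obtain ⟨e⟩ := he
  have split : ∀ (X Y : Type) [AddCommGroup X] [Module ℝ X] [TopologicalSpace X]
      [IsTopologicalAddGroup X] [AddCommGroup Y] [Module ℝ Y] [TopologicalSpace Y]
      [IsTopologicalAddGroup Y], Compl X Y →
      ∃ p : Y →L[ℝ] X, Nonempty (Y ≃L[ℝ] (X × p.ker)) := by
    intro X Y _ _ _ _ _ _ _ _ h
    obtain ⟨i, p, hip⟩ := h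
    exact ⟨p, ⟨ContinuousLinearEquiv.equivOfRightInverse p i hip⟩⟩
  constructor
  · intro h1 h2
    obtain ⟨p, ⟨s⟩⟩ := split E F h1
    obtain ⟨q, ⟨w⟩⟩ := split F E h2
    have a1 : E ≃L[ℝ] (F × E) := absorb e w
    have a2 : E ≃L[ℝ] (E × E) := e.trans ((seqSucc E).trans
      ((ContinuousLinearEquiv.refl ℝ E).prodCongr e.symm))
    have a3 : F ≃L[ℝ] (E × F) := s.trans
      ((a2.prodCongr (ContinuousLinearEquiv.refl ℝ _)).trans
        ((ContinuousLinearEquiv.prodAssoc ℝ E E _).trans
          ((ContinuousLinearEquiv.refl ℝ E).prodCongr s.symm)))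
    exact ⟨a3.trans ((ContinuousLinearEquiv.prodComm ℝ E F).trans a1.symm)⟩
  · intro h2
    obtain ⟨q, ⟨w⟩⟩ := split F E h2
    have a1 : E ≃L[ℝ] (F × E) := absorb e w
    exact ⟨a1.trans (ContinuousLinearEquiv.prodComm ℝ F E)⟩

end Pool.Agent.LSG.H37
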