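import Pool.Agent.LSG.StmtsE

set_option autoImplicit false

open MeasureTheory Set Topology
open scoped BigOperators Pointwise

namespace Pool.Agent.LSG.H37

theorem npk : NpkStmt := by
  intro H _ _ _ _ V hV
  set V₀ : Set H := V ∩ V⁻¹ with hV₀
  have hV₀n : V₀ ∈ nhds (1 : H) := Filter.inter_mem hV (inv_mem_nhds_one H hV)
  have hsymm : ∀ a b : H, a⁻¹ * b ∈ V₀ → b⁻¹ * a ∈ V₀ := by
    intro a b h
    have h1 : b⁻¹ * a = (a⁻¹ * b)⁻¹ := by group
    rw [h1]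
    refine ⟨h.2, ?_⟩
    rw [Set.mem_inv, inv_inv]
    exact h.1
  obtain ⟨V0, hV0, hsplit⟩ := exists_nhds_one_split4 hV₀n
  set W₁ : Set H := V0 ∩ V0⁻¹ with hW₁
  have hWn : W₁ ∈ nhds (1 : H) := Filter.inter_mem hV0 (inv_mem_nhds_one H hV0)
  obtain ⟨W, hWn', hWc, hWW⟩ := exists_mem_nhds_isClosed_subset hWn
  obtain ⟨S, hS⟩ := zorn_subset {S : Set H | S.Pairwise fun g h => g⁻¹ * h ∉ V₀} (by
    intro c hc hch
    refine ⟨⋃₀ c, ?_, fun s hs => Set.subset_sUnion_of_mem hs⟩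
    exact (Set.pairwise_sUnion hch.directedOn).2 fun a ha => hc ha)
  have hSp : S.Pairwise fun g h => g⁻¹ * h ∉ V₀ := hS.1
  have hcov : (⋃ g ∈ S, g • V) = Set.univ := by
    rw [Set.eq_univ_iff_forall]
    intro h
    have hh : ∃ g ∈ S, g⁻¹ * h ∈ V₀ := by
      by_contra hno
      push Not at hno
      have hins : (insert h S).Pairwise fun g h => g⁻¹ * h ∉ V₀ := by
        refine hSp.insert ?_
        intro b hb hne
        exact ⟨fun h1 => hno b hb (hsymm h b h1), hno b hb⟩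
      have hsub : insert h S ⊆ S := hS.2 hins (Set.subset_insert h S)
      have hhS : h ∈ S := hsub (Set.mem_insert h S)
      apply hno h hhS
      rw [inv_mul_cancel]
      exact mem_of_mem_nhds hV₀n
    obtain ⟨g, hg, hgh⟩ := hh
    refine Set.mem_biUnion hg ?_
    rw [Set.mem_smul_set]
    exact ⟨g⁻¹ * h, hgh.1, by rw [smul_eq_mul, mul_inv_cancel_left]⟩
  -- the key fact
  have key : ∀ (x : H), ∀ g ∈ S, ∀ h ∈ S, ∀ w ∈ W₁, ∀ w' ∈ W₁, ∀ v ∈ W, ∀ v' ∈ W,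
      x * w = g * v → x * w' = h * v' → g = h := by
    intro x g hg h hh w hw w' hw' v hv v' hv' h1 h2
    by_contra hne
    apply hSp hg hh hne
    have h5 : g⁻¹ * h = v * w⁻¹ * w' * v'⁻¹ := by
      have h3 : g = x * w * v⁻¹ := by
        rw [h1]
        group
      have h4 : h = x * w' * v'⁻¹ := by
        rw [h2]
        group
      rw [h3, h4]
      group
    rw [h5]
    exact hsplit (hWW hv).1 hw.2 hw'.1 (hWW hv').2
  have hone : (1 : H) ∈ W₁ := mem_of_mem_nhds hWn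
  refine ⟨S, W, hWn', hWc, ?_, ?_, hcov⟩
  · intro g hg h hh hne
    rw [Set.disjoint_left]
    rintro y ⟨v, hv, h1⟩ ⟨v', hv', h2⟩
    apply hne
    refine key y g hg h hh 1 hone 1 hone v hv v' hv' ?_ ?_
    · rw [mul_one]
      exact h1.symm
    · rw [mul_one]
      exact h2.symm
  · intro x
    refine ⟨x • W₁, ?_, ?_⟩
    · have h1 : x • W₁ ∈ nhds (x • (1 : H)) := smul_mem_nhds_smul x hWn
      rwa [smul_eq_mul, mul_one] at h1
    · apply Set.Subsingleton.finite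
      rintro ⟨g, hg⟩ ⟨y, ⟨v, hv, h1⟩, ⟨w, hw, h2⟩⟩ ⟨h, hh⟩ ⟨y', ⟨v', hv', h1'⟩, ⟨w', hw', h2'⟩⟩
      exact Subtype.ext (key x g hg h hh w hw w' hw' v hv v' hv' (h2.trans h1.symm)
        (h2'.trans h1'.symm))

end Pool.Agent.LSG.H37
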